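import Mathlib

open MeasureTheory Set Real intervalIntegral
open scoped Topology

namespace Pool.Agent.R230.LC

/-- `sin²(φ/2)` -/
noncomputable def sn (φ : ℝ) : ℝ := sin (φ / 2) ^ 2

/-- `1 + (y²-1) sin²(φ/2)` -/
noncomputable def Dd (y φ : ℝ) : ℝ := 1 + (y ^ 2 - 1) * sn φ

/-- `∫₀^π sin^{2j}(φ/2) D^r dφ` -/
noncomputable def M (j : ℕ) (r y : ℝ) : ℝ := ∫ φ in (0 : ℝ)..π, sn φ ^ j * Dd y φ ^ r

lemma sn_nonneg (φ : ℝ) : 0 ≤ sn φ := sq_nonneg _
lemma sn_le (φ : ℝ) : sn φ ≤ 1 := sin_sq_le_one _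

lemma D_pos {y : ℝ} (hy : 0 < y) (φ : ℝ) : 0 < Dd y φ := by
  unfold Dd
  have h0 := sn_nonneg φ
  have h1 := sn_le φ
  rcases h0.lt_or_eq with h | h
  · nlinarith [mul_pos (pow_pos hy 2) h]
  · rw [← h]; norm_num

lemma cont_sn : Continuous sn := by unfold sn; fun_prop

lemma cont_D (y : ℝ) : Continuous (Dd y) := by
  unfold Dd
  exact continuous_const.add (continuous_const.mul cont_sn)

lemma cont_int {y : ℝ} (hy : 0 < y) (j : ℕ) (r : ℝ) :
    Continuous fun φ => sn φ ^ j * Dd y φ ^ r :=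
  (cont_sn.pow j).mul ((cont_D y).rpow_const fun φ => Or.inl (D_pos hy φ).ne')

lemma hasDerivAt_M {y : ℝ} (hy : 0 < y) (j : ℕ) (r : ℝ) :
    HasDerivAt (fun y => M j r y) (2 * r * y * M (j + 1) (r - 1) y) y := by
  set K : Set (ℝ × ℝ) := Icc (y / 2) (3 * y / 2) ×ˢ Icc 0 π with hK
  have hKc : IsCompact K := isCompact_Icc.prod isCompact_Icc
  have hcont : ContinuousOn (fun p : ℝ × ℝ => sn p.2 ^ j * (r * Dd p.1 p.2 ^ (r - 1) *
      (2 * p.1 * sn p.2))) K := by
    have c1 : Continuous fun p : ℝ × ℝ => Dd p.1 p.2 := by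
      unfold Dd sn; fun_prop
    have c2 : Continuous fun p : ℝ × ℝ => sn p.2 := cont_sn.comp continuous_snd
    refine (c2.pow j).continuousOn.mul ((continuousOn_const.mul ?_).mul
      ((continuous_const.mul continuous_fst).mul c2).continuousOn)
    refine c1.continuousOn.rpow_const fun p hp => Or.inl (D_pos ?_ _).ne'
    have := hp.1.1
    linarith
  obtain ⟨B, hB⟩ := hKc.exists_bound_of_continuousOn hcont
  have key := intervalIntegral.hasDerivAt_integral_of_dominated_loc_of_deriv_le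
    (μ := volume) (a := 0) (b := π) (x₀ := y) (s := Icc (y / 2) (3 * y / 2))
    (F := fun y φ => sn φ ^ j * Dd y φ ^ r)
    (F' := fun y φ => sn φ ^ j * (r * Dd y φ ^ (r - 1) * (2 * y * sn φ)))
    (bound := fun _ => B) (Icc_mem_nhds (by linarith) (by linarith)) ?_ ?_ ?_ ?_ ?_ ?_
  · have h1 : ∫ φ in (0 : ℝ)..π, sn φ ^ j * (r * Dd y φ ^ (r - 1) * (2 * y * sn φ)) =
        2 * r * y * M (j + 1) (r - 1) y := by
      unfold M
      rw [← intervalIntegral.integral_const_mul]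
      congr 1
      ext φ
      ring
    rw [← h1]
    exact key.2
  · filter_upwards [lt_mem_nhds hy] with z hz
    exact (cont_int hz j r).aestronglyMeasurable
  · exact (cont_int hy j r).intervalIntegrable _ _
  · apply Continuous.aestronglyMeasurable
    exact (cont_sn.pow j).mul ((continuous_const.mul ((cont_D y).rpow_const
      fun φ => Or.inl (D_pos hy φ).ne')).mul (continuous_const.mul cont_sn))
  · refine Filter.Eventually.of_forall fun φ hφ z hz => ?_
    rw [uIoc_of_le pi_pos.le] at hφ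
    exact hB (z, φ) ⟨hz, ⟨hφ.1.le, hφ.2⟩⟩
  · exact intervalIntegrable_const
  · refine Filter.Eventually.of_forall fun φ _ z hz => ?_
    have hz0 : 0 < z := by have := hz.1; linarith
    have h1 : HasDerivAt (fun z => Dd z φ) (2 * z * sn φ) z := by
      unfold Dd
      have h2 : HasDerivAt (fun z : ℝ => 1 + (z ^ 2 - 1) * sn φ)
          (((2 : ℕ) * z ^ (2 - 1)) * sn φ) z :=
        (((hasDerivAt_pow 2 z).sub_const 1).mul_const (sn φ)).const_add 1
      simpa using h2
    have h3 := (h1.rpow_const (p := r) (Or.inl (D_pos hz0 φ).ne')).const_mul (sn φ ^ j)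
    have h4 : sn φ ^ j * (2 * z * sn φ * r * Dd z φ ^ (r - 1)) =
        sn φ ^ j * (r * Dd z φ ^ (r - 1) * (2 * z * sn φ)) := by ring
    rw [← h4]
    exact h3

lemma M0_pos {y : ℝ} (hy : 0 < y) (r : ℝ) : 0 < M 0 r y := by
  unfold M
  apply intervalIntegral.intervalIntegral_pos_of_pos_on
  · exact (cont_int hy 0 r).intervalIntegrable _ _
  · intro φ _
    rw [pow_zero, one_mul]
    exact rpow_pos_of_pos (D_pos hy φ) _
  · exact pi_pos

lemma M_nonneg {y : ℝ} (hy : 0 < y) (j : ℕ) (r : ℝ) : 0 ≤ M j r y := by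
  unfold M
  apply intervalIntegral.integral_nonneg pi_pos.le
  intro φ _
  exact mul_nonneg (pow_nonneg (sn_nonneg φ) j) (rpow_nonneg (D_pos hy φ).le _)

/-- splitting off one factor `D` -/
lemma M_split {y : ℝ} (hy : 0 < y) (j : ℕ) (r : ℝ) :
    M j r y = M j (r - 1) y + (y ^ 2 - 1) * M (j + 1) (r - 1) y := by
  unfold M
  rw [← intervalIntegral.integral_const_mul, ← intervalIntegral.integral_add
    ((cont_int hy j _).intervalIntegrable _ _)
    (((cont_int hy (j + 1) _).intervalIntegrable _ _).const_mul _)]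
  apply intervalIntegral.integral_congr
  intro φ _
  have h1 : Dd y φ ^ r = Dd y φ ^ (r - 1) * Dd y φ := by
    rw [← rpow_add_one (D_pos hy φ).ne']
    congr 1
    ring
  simp only
  rw [h1]
  unfold Dd
  ring

lemma M1_le {y : ℝ} (hy : 0 < y) (r : ℝ) : y ^ 2 * M 1 (r - 1) y ≤ M 0 r y := by
  unfold M
  rw [← intervalIntegral.integral_const_mul]
  apply intervalIntegral.integral_mono_on pi_pos.le
  · exact ((cont_int hy 1 _).intervalIntegrable _ _).const_mul _
  · exact (cont_int hy 0 _).intervalIntegrable _ _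
  · intro φ _
    have h1 : Dd y φ ^ r = Dd y φ ^ (r - 1) * Dd y φ := by
      rw [← rpow_add_one (D_pos hy φ).ne']
      congr 1
      ring
    rw [pow_one, pow_zero, one_mul, h1]
    have h2 : y ^ 2 * sn φ ≤ Dd y φ := by
      unfold Dd
      nlinarith [sn_le φ]
    have h3 : 0 ≤ Dd y φ ^ (r - 1) := rpow_nonneg (D_pos hy φ).le _
    calc y ^ 2 * (sn φ * Dd y φ ^ (r - 1)) = (y ^ 2 * sn φ) * Dd y φ ^ (r - 1) := by ring
      _ ≤ Dd y φ * Dd y φ ^ (r - 1) := mul_le_mul_of_nonneg_right h2 h3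
      _ = Dd y φ ^ (r - 1) * Dd y φ := mul_comm _ _

/-- integration by parts -/
lemma M_ibp {y : ℝ} (hy : 0 < y) (r : ℝ) :
    M 0 (r - 1) y + ((y ^ 2 - 1) - 2 + 2 * r * (y ^ 2 - 1)) * M 1 (r - 1) y -
      (2 * (r + 1) * (y ^ 2 - 1)) * M 2 (r - 1) y = 0 := by
  have hder : ∀ φ : ℝ, HasDerivAt (fun φ => sin φ * Dd y φ ^ r)
      (Dd y φ ^ (r - 1) + ((y ^ 2 - 1) - 2 + 2 * r * (y ^ 2 - 1)) *
        (sn φ * Dd y φ ^ (r - 1)) -
        (2 * (r + 1) * (y ^ 2 - 1)) * (sn φ ^ 2 * Dd y φ ^ (r - 1))) φ := by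
    intro φ
    have h0 : HasDerivAt sn (sin φ / 2) φ := by
      have h1 : HasDerivAt (fun φ : ℝ => sin (φ / 2) ^ 2)
          ((2 : ℕ) * sin (φ / 2) ^ (2 - 1) * (cos (φ / 2) * (1 / 2))) φ := by
        have h2 : HasDerivAt (fun φ : ℝ => φ / 2) (1 / 2) φ := (hasDerivAt_id' φ).div_const 2
        exact (h2.sin).pow 2
      have h3 : sin φ / 2 = (2 : ℕ) * sin (φ / 2) ^ (2 - 1) * (cos (φ / 2) * (1 / 2)) := by
        have h4 : sin φ = 2 * sin (φ / 2) * cos (φ / 2) := by
          rw [← sin_two_mul]; congr 1; ring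
        rw [h4]
        simp
        ring
      rw [h3]
      exact h1
    have h1 : HasDerivAt (Dd y) ((y ^ 2 - 1) * (sin φ / 2)) φ :=
      (h0.const_mul (y ^ 2 - 1)).const_add 1
    have h2 := (hasDerivAt_sin φ).mul (h1.rpow_const (p := r) (Or.inl (D_pos hy φ).ne'))
    have h5 : cos φ = 1 - 2 * sn φ := by
      unfold sn
      have := cos_sq' (φ / 2)
      have h6 := cos_two_mul (φ / 2)
      rw [mul_div_cancel₀ _ (two_ne_zero)] at h6
      rw [h6, this]
      ring
    have h6 : sin φ ^ 2 = 4 * sn φ * (1 - sn φ) := by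
      rw [sin_sq, h5]
      ring
    have h7 : Dd y φ ^ r = Dd y φ ^ (r - 1) * Dd y φ := by
      rw [← rpow_add_one (D_pos hy φ).ne']
      congr 1
      ring
    have h8 : Dd y φ = 1 + (y ^ 2 - 1) * sn φ := rfl
    have h9 : Dd y φ ^ (r - 1) + ((y ^ 2 - 1) - 2 + 2 * r * (y ^ 2 - 1)) *
        (sn φ * Dd y φ ^ (r - 1)) -
        (2 * (r + 1) * (y ^ 2 - 1)) * (sn φ ^ 2 * Dd y φ ^ (r - 1)) =
        cos φ * Dd y φ ^ r + sin φ * ((y ^ 2 - 1) * (sin φ / 2) * r * Dd y φ ^ (r - 1)) := by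
      rw [h7, h5]
      have h10 : sin φ * ((y ^ 2 - 1) * (sin φ / 2) * r * Dd y φ ^ (r - 1)) =
          (y ^ 2 - 1) * r / 2 * Dd y φ ^ (r - 1) * sin φ ^ 2 := by ring
      rw [h10, h6]
      generalize Dd y φ ^ (r - 1) = t
      rw [h8]
      ring
    rw [h9]
    exact h2
  have c0 := (cont_int hy 0 (r - 1)).intervalIntegrable (μ := volume) 0 π
  have c1 := (cont_int hy 1 (r - 1)).intervalIntegrable (μ := volume) 0 π
  have c2 := (cont_int hy 2 (r - 1)).intervalIntegrable (μ := volume) 0 π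
  simp only [pow_zero, one_mul, pow_one] at c0 c1
  have h1 := intervalIntegral.integral_eq_sub_of_hasDerivAt (a := 0) (b := π)
    (fun φ _ => hder φ) ((c0.add (c1.const_mul _)).sub (c2.const_mul _))
  rw [intervalIntegral.integral_sub (c0.add (c1.const_mul _)) (c2.const_mul _),
    intervalIntegral.integral_add c0 (c1.const_mul _), intervalIntegral.integral_const_mul,
    intervalIntegral.integral_const_mul] at h1
  simp only [sin_pi, sin_zero, zero_mul, sub_zero] at h1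
  unfold M
  simp only [pow_zero, one_mul, pow_one]
  exact h1

end Pool.Agent.R230.LC
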