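import Pool.Agent.R230.LC.L1

open MeasureTheory Set Real intervalIntegral
open scoped Topology

namespace Pool.Agent.R230.LC

/-- `v = (log M)' / r` -/
noncomputable def v (r y : ℝ) : ℝ := 2 * y * M 1 (r - 1) y / M 0 r y

lemma hasDerivAt_logM {y : ℝ} (hy : 0 < y) (r : ℝ) :
    HasDerivAt (fun y => log (M 0 r y)) (r * v r y) y := by
  have h1 := (hasDerivAt_M hy 0 r).log (M0_pos hy r).ne'
  have h2 : r * v r y = 2 * r * y * M (0 + 1) (r - 1) y / M 0 r y := by
    unfold v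
    rw [zero_add]
    ring
  rw [h2]
  exact h1

lemma rel {y : ℝ} (hy : 0 < y) (r : ℝ) :
    M 0 r y + (2 * (r - 1) * (y ^ 2 - 1) - (y ^ 2 - 1) - 2) * M 1 (r - 1) y -
      2 * (r - 1) * (y ^ 2 - 1) * y ^ 2 * M 2 (r - 1 - 1) y = 0 := by
  have h1 := M_ibp hy (r - 1)
  have h2 := M_split hy 0 r
  have h3 := M_split hy 0 (r - 1)
  have h4 := M_split hy 1 (r - 1)
  norm_num at h2 h3 h4
  rw [h2, h3, h4]
  linear_combination h1

/-- the Riccati equation -/
lemma hasDerivAt_v {y : ℝ} (hy : 0 < y) (r : ℝ) :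
    ∃ v' : ℝ, HasDerivAt (v r) v' y ∧
      (y ^ 2 - 1) * v' = -r * (y ^ 2 - 1) * v r y ^ 2 - 2 * y * v r y +
        2 * r * (y ^ 2 - 1) * v r y / y + 2 := by
  have hM := M0_pos hy r
  have h1 := hasDerivAt_M hy 1 (r - 1)
  have h0 := hasDerivAt_M hy 0 r
  have h2 : HasDerivAt (fun y : ℝ => 2 * y) 2 y := by
    simpa using (hasDerivAt_id' y).const_mul (2 : ℝ)
  have h3 := (h2.mul h1).div h0 hM.ne'
  refine ⟨_, h3, ?_⟩
  have hr := rel hy r
  unfold v
  simp only [Nat.reduceAdd, zero_add, Pi.mul_apply]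
  generalize M 0 r y = a at *
  generalize M 1 (r - 1) y = b at *
  generalize M 2 (r - 1 - 1) y = c at *
  have ha : a ≠ 0 := hM.ne'
  field_simp
  linear_combination (-a) * hr

/-- a barrier lemma -/
lemma barrier {f g f' : ℝ → ℝ} {a b : ℝ} (hab : a ≤ b) (hf : ContinuousOn f (Icc a b))
    (hg : ContinuousOn g (Icc a b)) (h0 : f a ≤ g a) (hgm : MonotoneOn g (Icc a b))
    (hd : ∀ x ∈ Ioo a b, HasDerivAt f (f' x) x)
    (hneg : ∀ x ∈ Ioo a b, g x < f x → f' x ≤ 0) : f b ≤ g b := by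
  by_contra hlt
  push Not at hlt
  set s : Set ℝ := {x | x ∈ Icc a b ∧ f x ≤ g x} with hs
  have hsc : IsCompact s := by
    have hcl : IsClosed s := by
      have := (hf.sub hg).preimage_isClosed_of_isClosed isClosed_Icc (isClosed_Iic (a := (0 : ℝ)))
      convert this using 1
      ext x
      simp [hs]
    exact isCompact_Icc.of_isClosed_subset hcl (fun x hx => hx.1)
  have hne : s.Nonempty := ⟨a, ⟨left_mem_Icc.2 hab, h0⟩⟩
  obtain ⟨y, hys, hymax⟩ := hsc.exists_isGreatest hne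
  have hyb : y < b := by
    rcases hys.1.2.lt_or_eq with h | h
    · exact h
    · exfalso
      have := hys.2
      rw [h] at this
      exact absurd this (not_le.2 hlt)
  have hgt : ∀ x ∈ Ioc y b, g x < f x := by
    intro x hx
    by_contra hcon
    push Not at hcon
    have := hymax ⟨⟨hys.1.1.trans hx.1.le, hx.2⟩, hcon⟩
    exact absurd hx.1 (not_lt.2 this)
  have hanti : AntitoneOn f (Icc y b) := by
    apply antitoneOn_of_deriv_nonpos (convex_Icc y b)
    · exact hf.mono (Icc_subset_Icc hys.1.1 le_rfl)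
    · rw [interior_Icc]
      intro x hx
      exact (hd x ⟨hys.1.1.trans_lt hx.1, hx.2⟩).differentiableAt.differentiableWithinAt
    · rw [interior_Icc]
      intro x hx
      have hx' : x ∈ Ioo a b := ⟨hys.1.1.trans_lt hx.1, hx.2⟩
      rw [(hd x hx').deriv]
      exact hneg x hx' (hgt x ⟨hx.1, hx.2.le⟩)
  have h1 := hanti (left_mem_Icc.2 hyb.le) (right_mem_Icc.2 hyb.le) hyb.le
  have h2 := hgm hys.1 (right_mem_Icc.2 hab) hyb.le
  linarith [hys.2]

/-- `√(1+τ²)+1+τ` -/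
noncomputable def G (τ : ℝ) : ℝ := √(1 + τ ^ 2) + 1 + τ

lemma G_sq (τ : ℝ) : G τ ^ 2 - 2 * (1 + τ) * G τ + 2 * τ = 0 := by
  unfold G
  have := sq_sqrt (by positivity : 0 ≤ 1 + τ ^ 2)
  nlinarith

lemma G_gt {τ : ℝ} (hτ : 0 ≤ τ) : τ < G τ ∧ 0 < G τ := by
  unfold G
  have := sqrt_nonneg (1 + τ ^ 2)
  constructor <;> linarith

lemma G_cont : Continuous G := by unfold G; fun_prop

/-- sign of the quadratic -/
lemma quad_pos {τ p : ℝ} (hτ : 0 ≤ τ) (hp : p < 2 / G τ) (hp2 : p ≤ 2) :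
    0 < τ * p ^ 2 - 2 * (1 + τ) * p + 2 := by
  obtain ⟨g1, g0⟩ := G_gt hτ
  have hP : τ * (2 / G τ) ^ 2 - 2 * (1 + τ) * (2 / G τ) + 2 = 0 := by
    have := G_sq τ
    field_simp
    linarith
  have h1 : τ * (2 / G τ) < 2 := by
    rw [mul_div_assoc', div_lt_iff₀ g0]
    linarith
  nlinarith [mul_nonneg hτ (sub_nonneg.2 hp2)]

lemma quad_nonpos {τ p : ℝ} (hτ : 0 ≤ τ) (hp : 2 / G τ ≤ p) (hp2 : p ≤ 2) :
    τ * p ^ 2 - 2 * (1 + τ) * p + 2 ≤ 0 := by
  obtain ⟨g1, g0⟩ := G_gt hτ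
  have hP : τ * (2 / G τ) ^ 2 - 2 * (1 + τ) * (2 / G τ) + 2 = 0 := by
    have := G_sq τ
    field_simp
    linarith
  have h1 : τ * (2 / G τ) < 2 := by
    rw [mul_div_assoc', div_lt_iff₀ g0]
    linarith
  nlinarith [mul_nonneg hτ (sub_nonneg.2 hp2)]

/-- `τ(y) = -r (y²-1)/y²` -/
noncomputable def tau (r y : ℝ) : ℝ := -r * (y ^ 2 - 1) / y ^ 2

/-- the barrier function -/
noncomputable def zeta (r y : ℝ) : ℝ := 2 / (y * G (tau r y))

lemma v_bounds {y : ℝ} (hy : 0 < y) (r : ℝ) : 0 ≤ v r y ∧ y * v r y ≤ 2 := by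
  have hM := M0_pos hy r
  constructor
  · unfold v
    have := M_nonneg hy 1 (r - 1)
    positivity
  · unfold v
    have := M1_le hy r
    rw [mul_div_assoc', div_le_iff₀ hM]
    nlinarith

/-- the Riccati equation in terms of the quadratic -/
lemma riccati {y : ℝ} (hy : 0 < y) (r : ℝ) :
    ∃ v' : ℝ, HasDerivAt (v r) v' y ∧
      (y ^ 2 - 1) * v' = tau r y * (y * v r y) ^ 2 - 2 * (1 + tau r y) * (y * v r y) + 2 := by
  obtain ⟨v', h1, h2⟩ := hasDerivAt_v hy r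
  refine ⟨v', h1, ?_⟩
  rw [h2]
  unfold tau
  field_simp
  ring

lemma v_at_one (r : ℝ) : v r 1 = 1 := by
  have h0 : M 0 r 1 = π := by
    unfold M Dd
    simp
  have h1 : M 1 (r - 1) 1 = π / 2 := by
    unfold M Dd sn
    have : ∀ φ : ℝ, sin (φ / 2) ^ 2 ^ 1 = (1 - cos φ) / 2 := by
      intro φ
      have h6 := cos_two_mul (φ / 2)
      rw [mul_div_cancel₀ _ (two_ne_zero)] at h6
      rw [pow_one, sin_sq, h6]
      ring
    simp only [one_pow, sub_self, zero_mul, add_zero, one_rpow, mul_one, pow_one]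
    simp only [pow_one] at this
    simp_rw [this]
    rw [intervalIntegral.integral_div, intervalIntegral.integral_sub intervalIntegrable_const
      (continuous_cos.intervalIntegrable _ _)]
    simp
  unfold v
  rw [h0, h1]
  have := pi_pos.ne'
  field_simp

lemma zeta_at_one (r : ℝ) : zeta r 1 = 1 := by
  unfold zeta tau G
  norm_num

end Pool.Agent.R230.LC
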