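import Pool.Agent.R230.LC.L2

open MeasureTheory Set Real intervalIntegral
open scoped Topology

namespace Pool.Agent.R230.LC

lemma cont_v (r : ℝ) : ContinuousOn (v r) (Ioi 0) := fun y hy => by
  obtain ⟨v', h, _⟩ := riccati hy r
  exact h.continuousAt.continuousWithinAt

lemma tau_cont (r : ℝ) : ContinuousOn (tau r) (Ioi 0) := by
  unfold tau
  refine ContinuousOn.div (by fun_prop) (by fun_prop) ?_
  intro y hy
  have : (0 : ℝ) < y := hy
  positivity

lemma cont_zeta (r : ℝ) (s : Set ℝ) (hs : s ⊆ Ioi 0)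
    (hτ : ∀ y ∈ s, 0 ≤ tau r y) : ContinuousOn (zeta r) s := by
  unfold zeta
  refine ContinuousOn.div continuousOn_const
    (continuousOn_id.mul (G_cont.comp_continuousOn ((tau_cont r).mono hs))) ?_
  intro y hy
  have h1 : (0 : ℝ) < y := hs hy
  have h2 := (G_gt (hτ y hy)).2
  exact (mul_pos h1 h2).ne'

lemma G_mono {s t : ℝ} (hs : 0 ≤ s) (hst : s ≤ t) : G s ≤ G t := by
  unfold G
  have : √(1 + s ^ 2) ≤ √(1 + t ^ 2) := sqrt_le_sqrt (by nlinarith)
  linarith

/-! ### case `r < 0`, `y ≥ 1` -/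

lemma tau_nonneg_one {r y : ℝ} (hr : r ≤ 0) (hy : 1 ≤ y) : 0 ≤ tau r y := by
  unfold tau
  have : 0 ≤ y ^ 2 - 1 := by nlinarith
  have h2 : 0 ≤ -r := by linarith
  positivity

lemma tau_mono {r x y : ℝ} (hr : r ≤ 0) (hx : 1 ≤ x) (hxy : x ≤ y) : tau r x ≤ tau r y := by
  unfold tau
  have hx0 : 0 < x := by linarith
  have hy0 : 0 < y := by linarith
  rw [mul_div_assoc, mul_div_assoc]
  apply mul_le_mul_of_nonneg_left _ (by linarith)
  rw [div_le_div_iff₀ (by positivity) (by positivity)]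
  nlinarith

lemma zeta_anti_one {r : ℝ} (hr : r ≤ 0) : AntitoneOn (zeta r) (Ici 1) := by
  intro x hx y hy hxy
  have hx1 : (1 : ℝ) ≤ x := hx
  have hy1 : (1 : ℝ) ≤ y := hy
  have h1 := tau_mono hr hx1 hxy
  have h2 := tau_nonneg_one hr hx1
  have h3 := G_mono h2 h1
  have h4 := (G_gt h2).2
  unfold zeta
  apply div_le_div_of_nonneg_left (by norm_num) (by positivity)
  exact mul_le_mul hxy h3 h4.le (by linarith)

lemma v_ge_zeta_one {r : ℝ} (hr : r ≤ 0) {y : ℝ} (hy : 1 ≤ y) : zeta r y ≤ v r y := by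
  have hsub : Icc 1 y ⊆ Ioi (0 : ℝ) := fun x hx => lt_of_lt_of_le zero_lt_one hx.1
  choose! f' hf1 hf2 using fun x (hx : (0 : ℝ) < x) => riccati hx r
  have key := barrier (f := fun x => -v r x) (g := fun x => -zeta r x) (f' := fun x => -f' x)
    hy ((cont_v r).mono hsub).neg
    (cont_zeta r _ hsub fun x hx => tau_nonneg_one hr hx.1).neg ?_ ?_ ?_ ?_
  · linarith
  · rw [v_at_one, zeta_at_one]
  · intro x hx z hz hxz
    have := zeta_anti_one hr (show x ∈ Ici 1 from hx.1) (show z ∈ Ici 1 from hz.1) hxz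
    show -zeta r x ≤ -zeta r z
    linarith
  · intro x hx
    exact (hf1 x (by linarith [hx.1])).neg
  · intro x hx hlt
    have hx0 : 0 < x := by linarith [hx.1]
    have h1 := hf2 x hx0
    have h2 : 0 ≤ tau r x := tau_nonneg_one hr hx.1.le
    have h3 : x * v r x < 2 / G (tau r x) := by
      have h4 : v r x < zeta r x := by linarith
      unfold zeta at h4
      have h5 := (G_gt h2).2
      rw [lt_div_iff₀ (by positivity)] at h4 ⊢
      linarith
    have h6 := quad_pos h2 h3 (v_bounds hx0 r).2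
    rw [← h1] at h6
    have h7 : 0 < x ^ 2 - 1 := by nlinarith [hx.1]
    have h8 := (pos_iff_pos_of_mul_pos h6).1 h7
    linarith

lemma deriv_logM {y : ℝ} (hy : 0 < y) (r : ℝ) :
    deriv (fun y => log (M 0 r y)) y = r * v r y := (hasDerivAt_logM hy r).deriv

lemma convex_one {r : ℝ} (hr : r ≤ 0) : ConvexOn ℝ (Ici 1) (fun y => log (M 0 r y)) := by
  apply MonotoneOn.convexOn_of_deriv (convex_Ici 1)
  · intro y hy
    have : (0 : ℝ) < y := lt_of_lt_of_le zero_lt_one hy
    exact (hasDerivAt_logM this r).continuousAt.continuousWithinAt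
  · rw [interior_Ici]
    intro y hy
    have : (0 : ℝ) < y := lt_trans zero_lt_one hy
    exact (hasDerivAt_logM this r).differentiableAt.differentiableWithinAt
  · rw [interior_Ici]
    have h1 : MonotoneOn (fun y => r * v r y) (Ioi 1) := by
      apply monotoneOn_of_deriv_nonneg (convex_Ioi 1)
      · exact continuousOn_const.mul ((cont_v r).mono fun y hy =>
          (lt_trans zero_lt_one (show (1 : ℝ) < y from hy) : (0 : ℝ) < y))
      · rw [interior_Ioi]
        intro y hy
        obtain ⟨v', h, _⟩ := riccati (lt_trans zero_lt_one hy) r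
        exact (h.const_mul r).differentiableAt.differentiableWithinAt
      · rw [interior_Ioi]
        intro y hy
        have hy1 : (1 : ℝ) < y := hy
        have hy0 : (0 : ℝ) < y := by linarith
        obtain ⟨v', h, he⟩ := riccati hy0 r
        rw [(h.const_mul r).deriv]
        have h2 : 0 ≤ tau r y := tau_nonneg_one hr hy1.le
        have h3 : 2 / G (tau r y) ≤ y * v r y := by
          have h4 := v_ge_zeta_one hr hy1.le
          unfold zeta at h4
          have h5 := (G_gt h2).2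
          rw [div_le_iff₀ (by positivity)] at h4 ⊢
          linarith
        have h6 := quad_nonpos h2 h3 (v_bounds hy0 r).2
        rw [← he] at h6
        have h7 : 0 < y ^ 2 - 1 := by nlinarith
        have h8 : v' ≤ 0 := by
          by_contra hc
          push Not at hc
          nlinarith [mul_pos h7 hc]
        nlinarith
    intro x hx y hy hxy
    rw [deriv_logM (lt_trans zero_lt_one hx), deriv_logM (lt_trans zero_lt_one hy)]
    exact h1 hx hy hxy

/-! ### case `r ≥ 1`, `0 < y ≤ 1` -/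

lemma tau_nonneg_two {r y : ℝ} (hr : 0 ≤ r) (hy0 : 0 < y) (hy : y ≤ 1) : 0 ≤ tau r y := by
  unfold tau
  have : 0 ≤ -(y ^ 2 - 1) := by nlinarith
  have h2 : -r * (y ^ 2 - 1) = r * (-(y ^ 2 - 1)) := by ring
  rw [h2]
  positivity

lemma yG {r y : ℝ} (hy0 : 0 < y) :
    y * G (tau r y) = √(y ^ 2 + (r * (1 / y - y)) ^ 2) + y + r * (1 / y - y) := by
  have h1 : y * tau r y = r * (1 / y - y) := by
    unfold tau
    field_simp
    ring
  unfold G
  rw [mul_add, mul_add, h1]
  congr 2
  · rw [← sqrt_sq hy0.le, ← sqrt_mul (sq_nonneg y), sqrt_sq hy0.le]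
    congr 1
    rw [← h1]
    ring
  · ring

lemma yG_anti {r x y : ℝ} (hr : 1 ≤ r) (hx0 : 0 < x) (hxy : x ≤ y) (hy : y ≤ 1) :
    y * G (tau r y) ≤ x * G (tau r x) := by
  have hy0 : 0 < y := by linarith
  rw [yG hy0, yG hx0]
  have hb : y - x ≤ 1 / x - 1 / y := by
    rw [div_sub_div _ _ hx0.ne' hy0.ne', le_div_iff₀ (by positivity)]
    have : x * y ≤ 1 := by nlinarith
    nlinarith
  set b₁ := r * (1 / x - x) with hb1
  set b₂ := r * (1 / y - y) with hb2
  have hb2n : 0 ≤ b₂ := by
    have : 1 ≤ 1 / y := by rw [le_div_iff₀ hy0]; linarith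
    rw [hb2]
    exact mul_nonneg (by linarith) (by linarith)
  have hbb : b₂ + 2 * (y - x) ≤ b₁ := by
    rw [hb1, hb2]
    nlinarith
  have hs : √(y ^ 2 + b₂ ^ 2) ≤ √(x ^ 2 + b₁ ^ 2) + (y - x) := by
    have h1 : √(x ^ 2 + b₂ ^ 2) ≤ √(x ^ 2 + b₁ ^ 2) := by
      apply sqrt_le_sqrt
      have : b₂ ≤ b₁ := by linarith
      nlinarith
    have h2 : √(y ^ 2 + b₂ ^ 2) ≤ √(x ^ 2 + b₂ ^ 2) + (y - x) := by
      rw [sqrt_le_left (by have := sqrt_nonneg (x ^ 2 + b₂ ^ 2); linarith)]
      have h3 := sq_sqrt (by positivity : 0 ≤ x ^ 2 + b₂ ^ 2)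
      have h4 : x ≤ √(x ^ 2 + b₂ ^ 2) := by
        apply le_sqrt_of_sq_le
        nlinarith [sq_nonneg b₂]
      nlinarith
    linarith
  linarith

lemma zeta_mono_two {r : ℝ} (hr : 1 ≤ r) : MonotoneOn (zeta r) (Ioc 0 1) := by
  intro x hx y hy hxy
  unfold zeta
  have h1 := yG_anti hr hx.1 hxy hy.2
  have h2 := (G_gt (tau_nonneg_two (r := r) (by linarith) hy.1 hy.2)).2
  have hy0 := hy.1
  exact div_le_div_of_nonneg_left (by norm_num) (mul_pos hy0 h2) h1

lemma v_ge_zeta_two {r : ℝ} (hr : 1 ≤ r) {y : ℝ} (hy0 : 0 < y) (hy : y ≤ 1) :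
    zeta r y ≤ v r y := by
  have hsub : ∀ x ∈ Icc 0 (1 - y), (1 - x) ∈ Ioc (0 : ℝ) 1 := fun x hx =>
    ⟨by linarith [hx.2], by linarith [hx.1]⟩
  choose! f' hf1 hf2 using fun x (hx : (0 : ℝ) < x) => riccati hx r
  have key := barrier (f := fun x => -v r (1 - x)) (g := fun x => -zeta r (1 - x))
    (f' := fun x => f' (1 - x)) (a := 0) (b := 1 - y) (by linarith) ?_ ?_ ?_ ?_ ?_ ?_
  · simp only [sub_sub_cancel] at key
    linarith
  · exact ((cont_v r).comp (by fun_prop) fun x hx => (hsub x hx).1).neg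
  · exact ((cont_zeta r (Ioc 0 1) (fun x hx => hx.1)
      fun x hx => tau_nonneg_two (by linarith) hx.1 hx.2).comp (by fun_prop)
      fun x hx => hsub x hx).neg
  · simp only [sub_zero]
    rw [v_at_one, zeta_at_one]
  · intro x hx z hz hxz
    have := zeta_mono_two hr (hsub z hz) (hsub x hx) (by linarith)
    simp only
    linarith
  · intro x hx
    have h1 := hf1 (1 - x) (by linarith [hx.2])
    have h2 : HasDerivAt (fun x : ℝ => 1 - x) (-1) x := by
      simpa using (hasDerivAt_id' x).const_sub 1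
    have h3 : HasDerivAt (fun x => -v r (1 - x)) (-(f' (1 - x) * (-1))) x :=
      (HasDerivAt.comp x h1 h2).neg
    simpa using h3
  · intro x hx hlt
    have hx0 : 0 < 1 - x := by linarith [hx.2]
    have h1 := hf2 (1 - x) hx0
    have h2 : 0 ≤ tau r (1 - x) := tau_nonneg_two (by linarith) hx0 (by linarith [hx.1])
    have h3 : (1 - x) * v r (1 - x) < 2 / G (tau r (1 - x)) := by
      have h4 : v r (1 - x) < zeta r (1 - x) := by linarith
      unfold zeta at h4
      have h5 := (G_gt h2).2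
      rw [lt_div_iff₀ (by positivity)] at h4 ⊢
      linarith
    have h6 := quad_pos h2 h3 (v_bounds hx0 r).2
    rw [← h1] at h6
    have h7 : (1 - x) ^ 2 - 1 < 0 := by nlinarith [hx.1]
    by_contra hc
    push Not at hc
    nlinarith [mul_pos_of_neg_of_neg h7 (neg_lt_zero.2 hc)]

lemma M_zero_pos {r : ℝ} (hr : 0 ≤ r) : 0 < M 0 r 0 := by
  unfold M
  apply intervalIntegral.intervalIntegral_pos_of_pos_on
  · apply Continuous.intervalIntegrable
    exact (cont_sn.pow 0).mul ((cont_D 0).rpow_const fun φ => Or.inr hr)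
  · intro φ hφ
    rw [pow_zero, one_mul]
    apply rpow_pos_of_pos
    have h1 : Dd 0 φ = cos (φ / 2) ^ 2 := by
      unfold Dd sn
      rw [cos_sq']
      ring
    rw [h1]
    have : 0 < cos (φ / 2) := cos_pos_of_mem_Ioo ⟨by linarith [hφ.1, pi_pos], by linarith [hφ.2]⟩
    positivity
  · exact pi_pos

lemma cont_M {r : ℝ} (hr : 0 ≤ r) : Continuous (M 0 r) := by
  unfold M
  apply intervalIntegral.continuous_parametric_intervalIntegral_of_continuous'
  have c1 : Continuous fun p : ℝ × ℝ => Dd p.1 p.2 := by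
    unfold Dd sn; fun_prop
  have c2 : Continuous fun p : ℝ × ℝ => sn p.2 := cont_sn.comp continuous_snd
  exact (c2.pow 0).mul (c1.rpow_const fun p => Or.inr hr)

lemma convex_two {r : ℝ} (hr : 1 ≤ r) :
    ConvexOn ℝ (Icc 0 1) (fun y => log (M 0 r y)) ∧
    MonotoneOn (fun y => log (M 0 r y)) (Icc 0 1) := by
  have hcont : ContinuousOn (fun y => log (M 0 r y)) (Icc 0 1) := by
    apply ContinuousOn.log (cont_M (by linarith)).continuousOn
    intro y hy
    rcases hy.1.lt_or_eq with h | h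
    · exact (M0_pos h r).ne'
    · rw [← h]
      exact (M_zero_pos (by linarith)).ne'
  have hdiff : DifferentiableOn ℝ (fun y => log (M 0 r y)) (interior (Icc 0 1)) := by
    rw [interior_Icc]
    intro y hy
    exact (hasDerivAt_logM hy.1 r).differentiableAt.differentiableWithinAt
  constructor
  · apply MonotoneOn.convexOn_of_deriv (convex_Icc 0 1) hcont hdiff
    rw [interior_Icc]
    have h1 : MonotoneOn (fun y => r * v r y) (Ioo 0 1) := by
      apply monotoneOn_of_deriv_nonneg (convex_Ioo 0 1)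
      · exact continuousOn_const.mul ((cont_v r).mono fun y hy => hy.1)
      · rw [interior_Ioo]
        intro y hy
        obtain ⟨v', h, _⟩ := riccati hy.1 r
        exact (h.const_mul r).differentiableAt.differentiableWithinAt
      · rw [interior_Ioo]
        intro y hy
        have hy0 := hy.1
        obtain ⟨v', h, he⟩ := riccati hy0 r
        rw [(h.const_mul r).deriv]
        have h2 : 0 ≤ tau r y := tau_nonneg_two (by linarith) hy0 hy.2.le
        have h3 : 2 / G (tau r y) ≤ y * v r y := by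
          have h4 := v_ge_zeta_two hr hy0 hy.2.le
          unfold zeta at h4
          have h5 := (G_gt h2).2
          rw [div_le_iff₀ (by positivity)] at h4 ⊢
          linarith
        have h6 := quad_nonpos h2 h3 (v_bounds hy0 r).2
        rw [← he] at h6
        have h7 : y ^ 2 - 1 < 0 := by nlinarith [hy.2]
        have h8 : 0 ≤ v' := by
          by_contra hc
          push Not at hc
          nlinarith [mul_pos_of_neg_of_neg h7 hc]
        have : 0 ≤ r := by linarith
        positivity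
    intro x hx y hy hxy
    rw [deriv_logM hx.1, deriv_logM hy.1]
    exact h1 hx hy hxy
  · apply monotoneOn_of_deriv_nonneg (convex_Icc 0 1) hcont hdiff
    rw [interior_Icc]
    intro y hy
    rw [deriv_logM hy.1]
    exact mul_nonneg (by linarith) (v_bounds hy.1 r).1

lemma M_abs (r y : ℝ) : M 0 r |y| = M 0 r y := by
  unfold M Dd
  simp only [sq_abs]

lemma convex_two_sym {r : ℝ} (hr : 1 ≤ r) :
    ConvexOn ℝ (Icc (-1) 1) (fun y => log (M 0 r y)) := by
  obtain ⟨h1, h2⟩ := convex_two hr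
  have himg : (fun y : ℝ => |y|) '' Icc (-1) 1 ⊆ Icc 0 1 := by
    rintro _ ⟨y, hy, rfl⟩
    exact ⟨abs_nonneg y, abs_le.2 hy⟩
  have himg' : (fun y : ℝ => |y|) '' Icc (-1) 1 = Icc 0 1 := by
    apply Subset.antisymm himg
    intro y hy
    exact ⟨y, ⟨by linarith [hy.1], hy.2⟩, abs_of_nonneg hy.1⟩
  have habs : ConvexOn ℝ (Icc (-1 : ℝ) 1) (fun y : ℝ => |y|) := by
    exact (convexOn_norm (E := ℝ) (convex_Icc (-1 : ℝ) 1))
  have h3 := ConvexOn.comp (g := fun y => log (M 0 r y)) (f := fun y : ℝ => |y|)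
    (by rw [himg']; exact h1) habs (by rw [himg']; exact h2)
  refine h3.congr ?_
  intro y _
  simp only [Function.comp]
  rw [M_abs]

end Pool.Agent.R230.LC
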